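import Pool.Agent.H61.SC.Stmts
import Pool.Agent.H61.SC.Ex

/-! Basic facts on cuts of nested slabs, rows SUB and MON of project SC -/

namespace Pool.SC.H64

open Finset

theorem tl_lev (e : Ed) : (hd e).2.2 ≤ (tl e).2.2 ∧ (tl e).2.2 ≤ (hd e).2.2 + 1 := by
  obtain ⟨i, x, y, h⟩ := e
  fin_cases i <;> simp [hd, tl, unitv]

theorem mem_box {R : Rect} {z1 z2 : ℤ} {v : V} :
    v ∈ box R z1 z2 ↔ (v.1, v.2.1) ∈ R.cols ∧ z1 ≤ v.2.2 ∧ v.2.2 ≤ z2 := by
  simp only [box, Rect.cols, Finset.mem_product, Finset.mem_Ico, Finset.mem_Icc]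
  tauto

theorem mem_eds {R : Rect} {z1 z2 : ℤ} {e : Ed} :
    e ∈ eds R z1 z2 ↔ hd e ∈ box R z1 z2 ∧ tl e ∈ box R z1 z2 := by
  simp [eds, hd]

theorem mem_cuts {R : Rect} {z1 z2 : ℤ} {S : Set V} {e : Ed} :
    e ∈ cuts R z1 z2 S ↔ e ∈ eds R z1 z2 ∧ cutE S e := by
  simp [cuts]

/-- the cut edges of an admissible set do not depend on the slab -/
theorem cuts_eq_of_adm {R : Rect} {z1 u1 u2 z2 : ℤ} {S : Set V} (hS : adm R u1 u2 S)
    (h1 : z1 ≤ u1) (h2 : u2 ≤ z2) : cuts R z1 z2 S = cuts R u1 u2 S := by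
  ext e
  rw [mem_cuts, mem_cuts, mem_eds, mem_eds, mem_box, mem_box, mem_box, mem_box]
  have hl := tl_lev e
  constructor
  · rintro ⟨⟨⟨a1, a2, a3⟩, b1, b2, b3⟩, hc⟩
    have hA := hS (hd e) a1
    have hB := hS (tl e) b1
    have c1 : u1 ≤ (hd e).2.2 := by
      by_contra hlt
      have : hd e ∈ S := hA.1 (by omega)
      have : tl e ∈ S := hB.1 (by omega)
      exact hc (by tauto)
    have c2 : (tl e).2.2 ≤ u2 := by
      by_contra hlt
      have : hd e ∉ S := hA.2 (by omega)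
      have : tl e ∉ S := hB.2 (by omega)
      exact hc (by tauto)
    exact ⟨⟨⟨a1, c1, by omega⟩, b1, by omega, c2⟩, hc⟩
  · rintro ⟨⟨⟨a1, a2, a3⟩, b1, b2, b3⟩, hc⟩
    exact ⟨⟨⟨a1, by omega, by omega⟩, b1, by omega, by omega⟩, hc⟩

theorem en_eq_of_adm {a b : ℝ} {T : Finset Ed} {R : Rect} {z1 u1 u2 z2 : ℤ} {S : Set V}
    (hS : adm R u1 u2 S) (h1 : z1 ≤ u1) (h2 : u2 ≤ z2) :
    en a b T R z1 z2 S = en a b T R u1 u2 S := by
  unfold en
  rw [cuts_eq_of_adm hS h1 h2]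

theorem cap_nonneg {a b : ℝ} (ha : 0 < a) (hab : a < b) (T : Finset Ed) (e : Ed) :
    0 ≤ cap a b T e := by
  unfold cap
  split_ifs <;> linarith

theorem en_nonneg {a b : ℝ} (ha : 0 < a) (hab : a < b) (T : Finset Ed) (R : Rect) (z1 z2 : ℤ)
    (S : Set V) : 0 ≤ en a b T R z1 z2 S :=
  Finset.sum_nonneg fun e _ => cap_nonneg ha hab T e

theorem flow_le {a b : ℝ} (ha : 0 < a) (hab : a < b) {T : Finset Ed} {R : Rect} {z1 z2 : ℤ}
    {S : Set V} (hS : adm R z1 z2 S) : flow a b R z1 z2 T ≤ en a b T R z1 z2 S := by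
  unfold flow flowC
  refine csInf_le ⟨0, ?_⟩ ⟨S, hS, trivial, rfl⟩
  rintro r ⟨S', _, _, rfl⟩
  exact en_nonneg ha hab _ _ _ _ _

theorem adm_flat (R : Rect) {z1 z2 : ℤ} (h : z1 < z2) : adm R z1 z2 {v : V | v.2.2 ≤ z1} := by
  intro v _
  constructor
  · intro h1; exact h1
  · intro h1 h2
    have : v.2.2 ≤ z1 := h2
    omega

theorem le_flow {a b : ℝ} {T : Finset Ed} {R : Rect} {z1 z2 : ℤ} (h : z1 < z2) {x : ℝ}
    (hx : ∀ S : Set V, adm R z1 z2 S → x ≤ en a b T R z1 z2 S) : x ≤ flow a b R z1 z2 T := by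
  unfold flow flowC
  refine le_csInf ⟨_, {v : V | v.2.2 ≤ z1}, adm_flat R h, trivial, rfl⟩ ?_
  rintro r ⟨S', hS', _, rfl⟩
  exact hx S' hS'

open Classical in
theorem en_eq_sum (a b : ℝ) (T : Finset Ed) (R : Rect) (z1 z2 : ℤ) (S : Set V) :
    en a b T R z1 z2 S = ∑ e ∈ eds R z1 z2, (if cutE S e then cap a b T e else 0) := by
  unfold en cuts
  rw [Finset.sum_filter]

/-- submodularity in one slab -/
theorem en_submod {a b : ℝ} (ha : 0 < a) (hab : a < b) (T : Finset Ed) (R : Rect) (z1 z2 : ℤ)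
    (S S' : Set V) :
    en a b T R z1 z2 (S ∩ S') + en a b T R z1 z2 (S ∪ S')
      ≤ en a b T R z1 z2 S + en a b T R z1 z2 S' := by
  classical
  rw [en_eq_sum, en_eq_sum, en_eq_sum, en_eq_sum, ← Finset.sum_add_distrib,
    ← Finset.sum_add_distrib]
  refine Finset.sum_le_sum fun e _ => ?_
  have hc := cap_nonneg ha hab T e
  unfold cutE
  by_cases h1 : hd e ∈ S <;> by_cases h2 : tl e ∈ S <;> by_cases h3 : hd e ∈ S' <;>
    by_cases h4 : tl e ∈ S' <;> simp [h1, h2, h3, h4] <;> linarith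

end Pool.SC.H64

namespace Pool.SC

open Pool.SC.H64

theorem mon_thm : S_MON := by
  intro a b R z1 z1' z2 z2' T ha hab h1 h2 h3
  refine le_flow h2 fun S hS => ?_
  have hS' : adm R z1 z2' S := fun v hv =>
    ⟨fun h => (hS v hv).1 (by omega), fun h => (hS v hv).2 (by omega)⟩
  rw [← en_eq_of_adm hS h1 h3]
  exact flow_le ha hab hS'

theorem sub_thm : S_SUB := by
  intro a b R z1 z1' z2 z2' T ha hab h1 h2 h3
  have key : ∀ S S' : Set V, adm R z1' z2 S → adm R z1 z2' S' →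
      flow a b R z1 z2 T + flow a b R z1' z2' T
        ≤ en a b T R z1' z2 S + en a b T R z1 z2' S' := by
    intro S S' hS hS'
    have hi : adm R z1 z2 (S ∩ S') := by
      intro v hv
      have hA := hS v hv
      have hB := hS' v hv
      refine ⟨fun h => ⟨hA.1 (by omega), hB.1 h⟩, fun h h' => hA.2 h h'.1⟩
    have hu : adm R z1' z2' (S ∪ S') := by
      intro v hv
      have hA := hS v hv
      have hB := hS' v hv
      refine ⟨fun h => Or.inl (hA.1 h), fun h h' => ?_⟩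
      rcases h' with h' | h'
      · exact hA.2 (by omega) h'
      · exact hB.2 h h'
    have e1 := flow_le (T := T) ha hab hi
    have e2 := flow_le (T := T) ha hab hu
    have e3 := en_submod ha hab T R z1 z2' S S'
    rw [← en_eq_of_adm (a := a) (b := b) (T := T) hi le_rfl h3] at e1
    rw [← en_eq_of_adm (a := a) (b := b) (T := T) hu h1 le_rfl] at e2
    rw [← en_eq_of_adm (a := a) (b := b) (T := T) hS h1 h3]
    linarith
  have k2 : ∀ S' : Set V, adm R z1 z2' S' →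
      flow a b R z1 z2 T + flow a b R z1' z2' T - en a b T R z1 z2' S'
        ≤ flow a b R z1' z2 T := by
    intro S' hS'
    refine le_flow h2 fun S hS => ?_
    have := key S S' hS hS'
    linarith
  have k3 : flow a b R z1 z2 T + flow a b R z1' z2' T - flow a b R z1' z2 T
      ≤ flow a b R z1 z2' T := by
    refine le_flow (by omega) fun S' hS' => ?_
    have := k2 S' hS'
    linarith
  linarith

end Pool.SC
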