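import Pool.Agent.H61.SC.Stmts
import Pool.Agent.H61.SC.Ex

/-! Row ES of project SC: Efron-Stein -/

namespace Pool.SC

open Finset

theorem es_thm : S_ES := by
  intro α _ p hp0 hp1 F
  induction F using Finset.induction_on with
  | empty =>
    intro f
    simp [va, ex_empty]
  | insert e G he ih =>
    intro f
    have hgr : ∀ e' ∈ G, ex p (insert e G) (fun s => gr e' f s ^ 2)
        = (1 - p) * ex p G (fun s => gr e' f s ^ 2)
          + p * ex p G (fun s => gr e' (fun t => f (insert e t)) s ^ 2) := by
      intro e' he'
      have hne : e ≠ e' := fun h => he (h ▸ he')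
      rw [ex_insert he]
      congr 2
      refine ex_congr fun s _ => ?_
      simp only [gr]
      rw [Finset.insert_comm e' e s, Finset.erase_insert_of_ne hne]
    have hge : ex p (insert e G) (fun s => gr e f s ^ 2)
        = ex p G (fun s => (f (insert e s) - f s) ^ 2) := by
      rw [ex_insert he]
      have h1 : ex p G (fun s => gr e f s ^ 2) = ex p G (fun s => (f (insert e s) - f s) ^ 2) := by
        refine ex_congr fun s hs => ?_
        simp only [gr]
        rw [Finset.erase_eq_of_notMem fun h => he (hs h)]
      have h2 : ex p G (fun s => gr e f (insert e s) ^ 2)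
          = ex p G (fun s => (f (insert e s) - f s) ^ 2) := by
        refine ex_congr fun s hs => ?_
        simp only [gr]
        rw [Finset.insert_idem, Finset.erase_insert fun h => he (hs h)]
      rw [h1, h2]
      ring
    rw [Finset.sum_insert he, Finset.sum_congr rfl hgr, Finset.sum_add_distrib, ← Finset.mul_sum,
      ← Finset.mul_sum, hge, va_eq, ex_insert he, ex_insert he]
    have i0 := ih f
    have i1 := ih (fun t => f (insert e t))
    rw [va_eq] at i0 i1
    have h3 := sq_ex_le (F := G) hp0.le hp1.le (fun s => f (insert e s) - f s)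
    rw [ex_sub] at h3
    have h4 : (0 : ℝ) ≤ (ex p G (fun s => f (insert e s)) - ex p G f) ^ 2 := sq_nonneg _
    have h5 : p * (1 - p) ≤ 1 := by nlinarith
    have h6 := mul_le_mul_of_nonneg_left i0 (show (0 : ℝ) ≤ 1 - p by linarith)
    have h7 := mul_le_mul_of_nonneg_left i1 hp0.le
    have h8 := mul_le_mul_of_nonneg_right h5 h4
    nlinarith [h3, h6, h7, h8]

end Pool.SC
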